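import Pool.Agent.Lead.TB.Defs

/-!
# Project TB, module TB-C: labellings of a `2m`-set which pair a given half with its complement
-/

set_option autoImplicit false

namespace Pool.Agent.Lead.TB

open Finset

namespace Lab

variable {X : Type} {m : ℕ} {K : Finset X}

/-- The map on labels given by the choices `f` and the two bijections. -/
def fn (f : Fin m → Bool) (a : Fin m ≃ {x // x ∈ K}) (b : Fin m ≃ {x // x ∉ K}) :
    Fin m × Bool → X := fun p => if p.2 = f p.1 then (a p.1 : X) else b p.1

theorem fn_bij (f : Fin m → Bool) (a : Fin m ≃ {x // x ∈ K}) (b : Fin m ≃ {x // x ∉ K}) :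
    Function.Bijective (fn f a b) := by
  constructor
  · rintro ⟨i, u⟩ ⟨j, v⟩ h
    simp only [fn] at h
    by_cases hu : u = f i
    · by_cases hv : v = f j
      · rw [if_pos hu, if_pos hv] at h
        have h1 := a.injective (Subtype.ext h)
        subst h1
        rw [hu, hv]
      · rw [if_pos hu, if_neg hv] at h
        exact absurd (h ▸ (a i).2) (b j).2
    · by_cases hv : v = f j
      · rw [if_neg hu, if_pos hv] at h
        exact absurd (h ▸ (a j).2) (b i).2
      · rw [if_neg hu, if_neg hv] at h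
        have h1 := b.injective (Subtype.ext h)
        subst h1
        rw [Bool.eq_not_of_ne hu, Bool.eq_not_of_ne hv]
  · intro x
    by_cases hx : x ∈ K
    · refine ⟨(a.symm ⟨x, hx⟩, f (a.symm ⟨x, hx⟩)), ?_⟩
      simp [fn]
    · refine ⟨(b.symm ⟨x, hx⟩, !f (b.symm ⟨x, hx⟩)), ?_⟩
      simp [fn]

/-- The labelling. -/
noncomputable def lb (t : (Fin m → Bool) × (Fin m ≃ {x // x ∈ K}) × (Fin m ≃ {x // x ∉ K})) :
    X ≃ Fin m × Bool := (Equiv.ofBijective (fn t.1 t.2.1 t.2.2) (fn_bij _ _ _)).symm

theorem lb_symm (t : (Fin m → Bool) × (Fin m ≃ {x // x ∈ K}) × (Fin m ≃ {x // x ∉ K}))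
    (p : Fin m × Bool) : (lb t).symm p = fn t.1 t.2.1 t.2.2 p := rfl

theorem lb_inj : Function.Injective (lb (X := X) (m := m) (K := K)) := by
  rintro ⟨f, a, b⟩ ⟨f', a', b'⟩ h
  have h1 : ∀ p, fn f a b p = fn f' a' b' p := by
    intro p
    have h2 := lb_symm (f, a, b) p
    rw [h, lb_symm] at h2
    exact h2.symm
  have hf : f = f' := by
    funext i
    by_contra hne
    have h2 := h1 (i, f i)
    simp only [fn, if_true, if_neg hne] at h2
    exact (b' i).2 (h2 ▸ (a i).2)
  subst hf
  have ha : a = a' := by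
    ext i
    have h2 := h1 (i, f i)
    simp only [fn, if_true] at h2
    exact h2
  have hb : b = b' := by
    ext i
    have h2 := h1 (i, !f i)
    simpa [fn] using h2
  rw [ha, hb]

theorem lb_cond (t : (Fin m → Bool) × (Fin m ≃ {x // x ∈ K}) × (Fin m ≃ {x // x ∉ K}))
    (i : Fin m) : (lb t).symm (i, true) ∈ K ↔ (lb t).symm (i, false) ∉ K := by
  obtain ⟨f, a, b⟩ := t
  rw [lb_symm, lb_symm]
  simp only [fn]
  cases hf : f i with
  | true => simp [(b i).2]
  | false => simp [(b i).2]

theorem lb_surj [Fintype X] [DecidableEq X] (hX : Fintype.card X = 2 * m)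
    (hK : K.card = m) (e : X ≃ Fin m × Bool)
    (he : ∀ i : Fin m, (e.symm (i, true) ∈ K ↔ e.symm (i, false) ∉ K)) :
    ∃ t : (Fin m → Bool) × (Fin m ≃ {x // x ∈ K}) × (Fin m ≃ {x // x ∉ K}), lb t = e := by
  have hcK : Fintype.card {x // x ∈ K} = m := by simpa using hK
  have hcK' : Fintype.card {x // x ∉ K} = m := by
    rw [Fintype.card_subtype_compl, hcK, hX]
    omega
  let f : Fin m → Bool := fun i => decide (e.symm (i, true) ∈ K)
  have hf1 : ∀ i, e.symm (i, f i) ∈ K := by
    intro i
    by_cases h : e.symm (i, true) ∈ K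
    · simpa [f, h] using h
    · have h2 : e.symm (i, false) ∈ K := by
        by_contra h3
        exact h ((he i).2 h3)
      simpa [f, h] using h2
  have hf2 : ∀ i, e.symm (i, !f i) ∉ K := by
    intro i
    by_cases h : e.symm (i, true) ∈ K
    · simpa [f, h] using (he i).1 h
    · simpa [f, h] using h
  let a : Fin m ≃ {x // x ∈ K} := Equiv.ofBijective (fun i => ⟨e.symm (i, f i), hf1 i⟩) (by
    rw [Fintype.bijective_iff_injective_and_card]
    constructor
    · intro i j h
      have h1 := e.symm.injective (congrArg Subtype.val h)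
      exact (Prod.mk.inj h1).1
    · rw [hcK, Fintype.card_fin])
  let b : Fin m ≃ {x // x ∉ K} := Equiv.ofBijective (fun i => ⟨e.symm (i, !f i), hf2 i⟩) (by
    rw [Fintype.bijective_iff_injective_and_card]
    constructor
    · intro i j h
      have h1 := e.symm.injective (congrArg Subtype.val h)
      exact (Prod.mk.inj h1).1
    · rw [hcK', Fintype.card_fin])
  refine ⟨(f, a, b), ?_⟩
  apply Equiv.symm_bijective.1
  ext p
  obtain ⟨i, u⟩ := p
  rw [lb_symm]
  simp only [fn]
  by_cases hu : u = f i
  · rw [if_pos hu, hu]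
    rfl
  · rw [if_neg hu, Bool.eq_not_of_ne hu]
    rfl

end Lab

theorem card_lab {X : Type} [Fintype X] [DecidableEq X] (m : ℕ) (hX : Fintype.card X = 2 * m)
    (K : Finset X) (hK : K.card = m) :
    (univ.filter fun e : X ≃ Fin m × Bool =>
      ∀ i : Fin m, (e.symm (i, true) ∈ K ↔ e.symm (i, false) ∉ K)).card =
      2 ^ m * m.factorial ^ 2 := by
  classical
  have hcK : Fintype.card {x // x ∈ K} = m := by simpa using hK
  have hcK' : Fintype.card {x // x ∉ K} = m := by
    rw [Fintype.card_subtype_compl, hcK, hX]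
    omega
  have h1 : (univ.filter fun e : X ≃ Fin m × Bool =>
      ∀ i : Fin m, (e.symm (i, true) ∈ K ↔ e.symm (i, false) ∉ K)) =
      univ.image (Lab.lb (X := X) (m := m) (K := K)) := by
    ext e
    simp only [mem_filter, mem_univ, true_and, mem_image]
    constructor
    · exact Lab.lb_surj hX hK e
    · rintro ⟨t, rfl⟩
      exact Lab.lb_cond t
  rw [h1, card_image_of_injective _ Lab.lb_inj, card_univ, Fintype.card_prod, Fintype.card_prod,
    Fintype.card_fun, Fintype.card_bool, Fintype.card_fin,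
    Fintype.card_equiv (Fintype.equivOfCardEq (by rw [hcK, Fintype.card_fin])),
    Fintype.card_equiv (Fintype.equivOfCardEq (by rw [hcK', Fintype.card_fin])),
    Fintype.card_fin, sq]

end Pool.Agent.Lead.TB
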